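import Pool.Agent.H431.OC.Log2

/-!
# Points of all degrees: Elliptic curves with the divisor at infinity
-/

set_option autoImplicit false

namespace Pool.Agent.H431.UC

open NumberField IsDedekindDomain Height Pool.Agent.Q290.NF IntermediateField Pool.Agent.H431.OC

variable {k : Type} [Field k] [NumberField k]

/-- **the third step**: all points of the line -/
theorem L2 {e1 e2 e3 : k}
    (h : ∀ (ε : ℝ), 0 < ε → ∃ C : ℝ, 0 ≤ C ∧
    ∀ (M : Type) [Field M] [NumberField M] [Algebra k M], ∀ x w : M,
      (x - algebraMap k M e1) * (x - algebraMap k M e2) * (x - algebraMap k M e3) = w ^ 2 →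
      (1 / 2 - ε) * logHeight₁ x ≤ DD M + sm (fun v => po (-ord v x)) +
        Module.finrank ℚ M * C) :
    ∀ (ε : ℝ), 0 < ε → ∃ C : ℝ, 0 ≤ C ∧
    ∀ (M : Type) [Field M] [NumberField M] [Algebra k M], ∀ x : M,
      (1 / 2 - ε) * logHeight₁ x ≤ DD M + sm (fun v => po (-ord v x) +
        om 2 (ord v (x - algebraMap k M e1)) + om 2 (ord v (x - algebraMap k M e2)) +
        om 2 (ord v (x - algebraMap k M e3))) + Module.finrank ℚ M * C := by
  classical
  intro ε hε
  obtain ⟨C, hC, H⟩ := h ε hε
  obtain ⟨N, hN, HN⟩ := exists_bad ({e1, e2, e3} : Finset k)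
  have hl : 0 ≤ Real.log 2 := Real.log_nonneg (by norm_num)
  have hlN : 0 ≤ Real.log N := Real.log_natCast_nonneg _
  refine ⟨C + Real.log N + 3 * Real.log 2, by positivity, ?_⟩
  intro M _ _ _ x
  have hd : (0 : ℝ) ≤ Module.finrank ℚ M := Nat.cast_nonneg _
  obtain ⟨a1, ha1⟩ : ∃ a1 : M, a1 = algebraMap k M e1 := ⟨_, rfl⟩
  obtain ⟨a2, ha2⟩ : ∃ a2 : M, a2 = algebraMap k M e2 := ⟨_, rfl⟩
  obtain ⟨a3, ha3⟩ : ∃ a3 : M, a3 = algebraMap k M e3 := ⟨_, rfl⟩
  rw [← ha1, ← ha2, ← ha3]
  obtain ⟨g0, hg0⟩ : ∃ g0 : HeightOneSpectrum (𝓞 M) → ℝ, g0 = fun v => po (-ord v x) +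
        om 2 (ord v (x - a1)) + om 2 (ord v (x - a2)) + om 2 (ord v (x - a3)) := ⟨_, rfl⟩
  rw [← hg0]
  have hg0s : (Function.support g0).Finite := by
    rw [hg0]
    exact supp_add (supp_add (supp_add (supp_po' x) (supp_om 2 _)) (supp_om 2 _)) (supp_om 2 _)
  have hg04 : ∀ v, po (-ord v x) ≤ g0 v := by
    intro v
    rw [hg0]
    have r1 := om_nonneg two_ne_zero (ord v (x - a1))
    have r2 := om_nonneg two_ne_zero (ord v (x - a2))
    have r3 := om_nonneg two_ne_zero (ord v (x - a3))
    show _ ≤ po (-ord v x) + om 2 (ord v (x - a1)) + om 2 (ord v (x - a2)) +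
      om 2 (ord v (x - a3))
    linarith
  have hg00 : ∀ v, 0 ≤ g0 v := fun v => (po_nonneg _).trans (hg04 v)
  obtain ⟨a, ha⟩ : ∃ a : M, a = (x - a1) * (x - a2) * (x - a3) := ⟨_, rfl⟩
  have q1 : 0 ≤ Module.finrank ℚ M * C := mul_nonneg hd hC
  have q2 : 0 ≤ Module.finrank ℚ M * Real.log N := mul_nonneg hd hlN
  have q3 : 0 ≤ Module.finrank ℚ M * Real.log 2 := mul_nonneg hd hl
  by_cases ha0 : a = 0
  · have h1 := H M x 0 (by
      rw [← ha1, ← ha2, ← ha3, ← ha, ha0]
      ring)
    have h2 : sm (fun v : HeightOneSpectrum (𝓞 M) => po (-ord v x)) ≤ sm g0 :=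
      sm_mono (supp_po' x) hg0s hg04
    have e : (Module.finrank ℚ M : ℝ) * (C + Real.log N + 3 * Real.log 2) =
      Module.finrank ℚ M * C + Module.finrank ℚ M * Real.log N +
      3 * (Module.finrank ℚ M * Real.log 2) := by ring
    rw [e]
    linarith
  obtain ⟨E, i1, i2, i3, z, hz, hdeg, hadj⟩ := exists_quad M a
  let _ : Algebra k E := ((algebraMap M E).comp (algebraMap k M)).toAlgebra
  have htow : ∀ u : k, algebraMap k E u = algebraMap M E (algebraMap k M u) := fun u => rfl
  obtain ⟨n, hn⟩ : ∃ n : ℝ, n = (Module.finrank M E : ℝ) := ⟨_, rfl⟩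
  have hn1 : 1 ≤ n := by
    rw [hn]
    exact_mod_cast Module.finrank_pos (R := M) (M := E)
  have hdE : (Module.finrank ℚ E : ℝ) = Module.finrank ℚ M * n := by
    rw [hn]
    exact_mod_cast (Module.finrank_mul_finrank ℚ M E).symm
  have h1 := H E (algebraMap M E x) z (by
    rw [hz, ha, ha1, ha2, ha3, htow, htow, htow, ← map_sub, ← map_sub, ← map_sub, ← map_mul,
      ← map_mul])
  have hp1 : x - a1 ≠ 0 := by
    intro h0
    apply ha0
    rw [ha, h0]
    ring
  have hp2 : x - a2 ≠ 0 := by
    intro h0
    apply ha0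
    rw [ha, h0]
    ring
  have hp3 : x - a3 ≠ 0 := by
    intro h0
    apply ha0
    rw [ha, h0]
    ring
  have horda : ∀ v : HeightOneSpectrum (𝓞 M), ord v a = ord v (x - a1) + ord v (x - a2) +
      ord v (x - a3) := by
    intro v
    rw [ha, ord_mul v (mul_ne_zero hp1 hp2) hp3, ord_mul v hp1 hp2]
  have hNs := supp_zeros (K := M) (N : M)
  have h2 := quad_ineq (k := M) (F := E) z a ha0 hz hadj (B := 1) zero_le_one
    (fun w => po (-ord w (algebraMap M E x)))
    (fun v => g0 v + max 0 (ord v (N : M) : ℝ)) (supp_po' _) (supp_add hg0s hNs)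
    (fun w => po_nonneg _) (fun w => po_le _)
    (fun v => add_nonneg (hg00 v) (le_max_left _ _)) (by
      intro v w e he hv2 hvw
      have hmx := le_max_left (0 : ℝ) (ord v (N : M) : ℝ)
      have ew : -ord w (algebraMap M E x) = (e : ℤ) * (-ord v x) := by
        rw [hvw]
        ring
      have he1 : (1 : ℝ) ≤ e := by exact_mod_cast Nat.one_le_iff_ne_zero.2 he
      refine ⟨fun _ => ?_, fun ho he2 => ?_⟩
      · rw [ew]
        have h3 := po_mul_le he (-ord v x)
        have h4 := hg04 v
        have h5 := hg00 v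
        nlinarith
      · by_cases hvN : ord v (N : M) = 0
        · have hb := HN M v hvN
          have b1 := hb e1 (by simp)
          have b2 := hb e2 (by simp)
          have b3 := hb e3 (by simp)
          rw [← ha1] at b1
          rw [← ha2] at b2
          rw [← ha3] at b3
          rw [horda] at ho
          have r1 := om_nonneg two_ne_zero (ord v (x - a1))
          have r2 := om_nonneg two_ne_zero (ord v (x - a2))
          have r3 := om_nonneg two_ne_zero (ord v (x - a3))
          have r4 := po_nonneg (-ord v x)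
          have hgv : g0 v = po (-ord v x) + om 2 (ord v (x - a1)) + om 2 (ord v (x - a2)) +
            om 2 (ord v (x - a3)) := by rw [hg0]
          rw [ew, he2]
          rcases lt_or_ge (ord v x) 0 with hneg | hge
          · have hx0 : x ≠ 0 := by
              rintro rfl
              rw [ord_zero] at hneg
              exact lt_irrefl _ hneg
            have hsub : ∀ b : M, ord v b = 0 → ord v (x - b) = ord v x := fun b hb' =>
              (ord_sub_eq v hx0 (Or.inr (by rw [hb']; exact hneg))).1
            rw [hsub _ b1, hsub _ b2, hsub _ b3] at ho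
            have ho' : Odd (-ord v x) := by
              rw [Int.odd_iff] at ho ⊢
              omega
            have h5 := po_le (((2 : ℕ) : ℤ) * -ord v x)
            have h6 : po (-ord v x) = 1 := po_pos (by omega)
            linarith
          · have hsub : ∀ b : M, ord v b = 0 → 0 ≤ ord v (x - b) := fun b hb' =>
              sub_nonneg' v hge hb'.ge
            have g1 := hsub _ b1
            have g2 := hsub _ b2
            have g3 := hsub _ b3
            have h6 : po (((2 : ℕ) : ℤ) * -ord v x) = 0 := po_nonpos (by omega)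
            rw [h6]
            have h7 : Odd (ord v (x - a1)) ∨ Odd (ord v (x - a2)) ∨ Odd (ord v (x - a3)) := by
              rw [Int.odd_iff] at ho
              rw [Int.odd_iff, Int.odd_iff, Int.odd_iff]
              omega
            rcases h7 with h7 | h7 | h7
            · have h8 : 0 < ord v (x - a1) := by
                rcases h7 with ⟨m, hm⟩
                omega
              have := om_two_odd h8 h7
              linarith
            · have h8 : 0 < ord v (x - a2) := by
                rcases h7 with ⟨m, hm⟩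
                omega
              have := om_two_odd h8 h7
              linarith
            · have h8 : 0 < ord v (x - a3) := by
                rcases h7 with ⟨m, hm⟩
                omega
              have := om_two_odd h8 h7
              linarith
        · have h5 : (1 : ℝ) ≤ ord v (N : M) := by
            have h6 := nat_nonneg v N
            have h7 : 1 ≤ ord v (N : M) := by omega
            exact_mod_cast h7
          have h6 : (1 : ℝ) ≤ max 0 (ord v (N : M) : ℝ) := le_max_of_le_right h5
          have h7 := po_le (-ord w (algebraMap M E x))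
          have h8 := hg00 v
          linarith)
  rw [sm_add hg0s hNs, ← hn] at h2
  have h3 := (zeros_le (K := M) (N : M)).trans (height_nat hN)
  rw [ht_ext, ← hn, hdE] at h1
  have h4 : n * ((1 / 2 - ε) * logHeight₁ x) ≤ n * (DD M + sm g0 +
      Module.finrank ℚ M * (C + Real.log N + 3 * Real.log 2)) := by
    have h5 := mul_le_mul_of_nonneg_left h3 (by linarith : (0 : ℝ) ≤ n)
    have e3 : n * ((1 / 2 - ε) * logHeight₁ x) = (1 / 2 - ε) * (n * logHeight₁ x) := by ring
    rw [e3]
    refine h1.trans ?_
    have e4 : DD E = Real.log |(discr E : ℝ)| := rfl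
    have e5 : DD M = Real.log |(discr M : ℝ)| := rfl
    rw [e4, e5]
    nlinarith
  exact le_of_mul_le_mul_left h4 (by linarith)

section loc

variable {M : Type} [Field M] [NumberField M] (v : HeightOneSpectrum (𝓞 M))

end loc

end Pool.Agent.H431.UC
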