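import Pool.Agent.H431.OC.Log4

/-!
# Points of all degrees: All number fields
-/

set_option autoImplicit false

namespace Pool.Agent.H431.UC

open NumberField IsDedekindDomain Height Pool.Agent.Q290.NF IntermediateField Pool.Agent.H431.OC

/-- **all number fields** -/
theorem L6 {F : Type} [Field F] [NumberField F]
    (h : ∀ (ε : ℝ), 0 < ε → ∃ C : ℝ, 0 ≤ C ∧
    ∀ (M : Type) [Field M] [NumberField M] [Algebra F M], ∀ t : M,
      (1 - ε) * logHeight₁ t ≤ DD M + sm (w3 t) + Module.finrank ℚ M * C)
    {ε : ℝ} (hε : 0 < ε) : ∃ C : ℝ, 0 ≤ C ∧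
    ∀ (M : Type) [Field M] [NumberField M], ∀ t : M,
      (1 - ε) * logHeight₁ t ≤ DD M + sm (w3 t) + Module.finrank ℚ M * C := by
  obtain ⟨C1, hC1, H1⟩ := h ε hε
  obtain ⟨C2, hC2, H2⟩ := compositum F
  refine ⟨C1 + C2, by positivity, fun M _ _ t => ?_⟩
  obtain ⟨E, i1, i2, i3, i4, hdeg, hdisc⟩ := H2 M
  have hdE : Module.finrank ℚ M * Module.finrank M E = Module.finrank ℚ E :=
    Module.finrank_mul_finrank ℚ M E
  have hdE' : (Module.finrank ℚ E : ℝ) = Module.finrank ℚ M * Module.finrank M E := by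
    exact_mod_cast hdE.symm
  have h1 := H1 E (algebraMap M E t)
  have h2 : sm (w3 (algebraMap M E t)) ≤ Module.finrank M E * sm (w3 t) := by
    refine sm_ext (supp_w3 _) (supp_w3 _) (fun v => w3_nonneg t v) fun v w e he hvw => ?_
    have e1 : ord w (algebraMap M E t - 1) = e * ord v (t - 1) := by
      rw [← hvw, map_sub, map_one]
    have e2 : -ord w (algebraMap M E t) = e * -ord v t := by
      rw [hvw]
      ring
    have r1 := po_mul_le he (ord v t)
    have r2 := po_mul_le he (ord v (t - 1))
    have r3 := po_mul_le he (-ord v t)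
    have he1 : (1 : ℝ) ≤ e := by exact_mod_cast Nat.one_le_iff_ne_zero.2 he
    have h0 := w3_nonneg t v
    have h3 : w3 (algebraMap M E t) w ≤ w3 t v := by
      unfold w3
      rw [e1, e2, hvw t]
      linarith
    nlinarith
  rw [ht_ext] at h1
  have pME : (0 : ℝ) < Module.finrank M E := by exact_mod_cast Module.finrank_pos
  rw [hdE'] at h1
  have h4 : (Module.finrank M E : ℝ) * ((1 - ε) * logHeight₁ t) ≤
      Module.finrank M E * (DD M + sm (w3 t) + Module.finrank ℚ M * (C1 + C2)) := by
    have e1 : (Module.finrank M E : ℝ) * ((1 - ε) * logHeight₁ t) =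
      (1 - ε) * (Module.finrank M E * logHeight₁ t) := by ring
    rw [e1]
    refine h1.trans ?_
    have : (Module.finrank M E : ℝ) * (DD M + sm (w3 t) + Module.finrank ℚ M * (C1 + C2)) =
      Module.finrank M E * (DD M + Module.finrank ℚ M * C2) + Module.finrank M E * sm (w3 t) +
      Module.finrank ℚ M * Module.finrank M E * C1 := by ring
    rw [this]
    linarith
  exact le_of_mul_le_mul_left h4 pME

end Pool.Agent.H431.UC
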