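import Pool.Agent.H431.UC.Red
import Pool.Agent.H431.UC.Log5
import Pool.Graph.R_pool_sql_team_seeded_2aa45f1a.Q290.NF.Triple

/-!
# Points of all degrees: the three point inequality and the triples
-/

set_option autoImplicit false

namespace Pool.Agent.H431.UC

open NumberField IsDedekindDomain Height Pool.Agent.Q290.NF IntermediateField Polynomial
open Pool.Agent.H431.OC

theorem om_le_po (m : ℕ) (n : ℤ) : om m n ≤ po n := by
  rcases lt_or_ge 0 n with h | h
  · rw [po_pos h]
    exact om_le_one m n
  · rw [om_nonpos m h, po_nonpos h]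

/-- from the orbifold inequality to the three point inequality -/
theorem three_of_W {F : Type} [Field F] [NumberField F] (h : W F 4 4 4) {ε : ℝ} (hε : 0 < ε) :
    ∃ C : ℝ, 0 ≤ C ∧ ∀ (M : Type) [Field M] [NumberField M] [Algebra F M], ∀ t : M,
      (1 - ε) * logHeight₁ t ≤ DD M + sm (w3 t) + Module.finrank ℚ M * C := by
  obtain ⟨j, hj⟩ := exists_nat_gt (2 / ε)
  obtain ⟨l, hl⟩ : ∃ l : ℕ, l = 4 * 2 ^ j := ⟨_, rfl⟩
  have hl0 : l ≠ 0 := by
    rw [hl]
    exact mul_ne_zero (by norm_num) (pow_ne_zero _ two_ne_zero)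
  have hl' : (0 : ℝ) < l := by exact_mod_cast Nat.pos_of_ne_zero hl0
  have hW := W_diag h j
  rw [← hl] at hW
  obtain ⟨C, hC, H⟩ := hW (ε / 2) (by positivity)
  refine ⟨C, hC, fun M _ _ _ t => ?_⟩
  have h1 := H M t
  have h2 : sm (wgt l l l t) ≤ sm (w3 t) := by
    refine sm_mono (supp_wgt l l l t) (supp_w3 t) fun v => ?_
    have r1 := om_le_po l (ord v t)
    have r2 := om_le_po l (ord v (t - 1))
    have r3 := om_le_po l (-ord v t)
    unfold wgt w3
    linarith
  have h3 : 3 / (l : ℝ) ≤ ε / 2 := by
    have h4 : (j : ℝ) ≤ 2 ^ j := by exact_mod_cast Nat.lt_two_pow_self.le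
    have h5 : 2 / ε ≤ 2 ^ j := hj.le.trans h4
    rw [div_le_iff₀ hε] at h5
    rw [div_le_iff₀ hl', hl]
    push_cast
    nlinarith
  have h6 : (1 - ε) * logHeight₁ t ≤
      (1 - 1 / (l : ℝ) - 1 / (l : ℝ) - 1 / (l : ℝ) - ε / 2) * logHeight₁ t := by
    refine mul_le_mul_of_nonneg_right ?_ (zero_le_logHeight₁ _)
    have e : 3 / (l : ℝ) = 1 / l + 1 / l + 1 / l := by ring
    linarith
  linarith

/-- the three point inequality for all triples -/
theorem w3_le_rad {K : Type} [Field K] [NumberField K] {a b c : K} (ha : a ≠ 0) (hb : b ≠ 0)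
    (hc : c ≠ 0) (h : a + b + c = 0) : sm (w3 (-a / b)) ≤ wt (Rad a b c) := by
  classical
  rw [wt_eq]
  have t0 : -a / b ≠ 0 := div_ne_zero (neg_ne_zero.2 ha) hb
  have e1 : -a / b - 1 = c / b := by
    field_simp
    linear_combination -h
  have hfin : (Function.support fun v : HeightOneSpectrum (𝓞 K) =>
      if Rad a b c v then (1 : ℝ) else 0).Finite := by
    refine ((fin_ord ha).union ((fin_ord hb).union (fin_ord hc))).subset fun v hv => ?_
    rw [Function.mem_support, ne_eq, ite_eq_right_iff, Classical.not_imp] at hv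
    by_contra hcon
    rw [Set.mem_union, Set.mem_union, not_or, not_or] at hcon
    obtain ⟨c1, c2, c3⟩ := hcon
    simp only [Set.mem_ofPred_eq, not_not] at c1 c2 c3
    apply hv.1
    rw [(ord_eq_zero_iff v ha).1 c1, (ord_eq_zero_iff v hb).1 c2, (ord_eq_zero_iff v hc).1 c3]
    exact ⟨rfl, rfl⟩
  refine sm_mono (supp_w3 _) hfin fun v => ?_
  have o1 : ord v (-a / b) = ord v a - ord v b := by
    rw [ord_div v (neg_ne_zero.2 ha) hb, ord_neg]
  have o2 : ord v (-a / b - 1) = ord v c - ord v b := by
    rw [e1, ord_div v hc hb]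
  unfold w3
  rw [o1, o2]
  -- the smallest order is attained twice
  have hR : Rad a b c v ↔ ¬ (ord v a = ord v b ∧ ord v b = ord v c) := by
    unfold Rad
    have k1 : v.valuation K a = v.valuation K b ↔ ord v a = ord v b := by
      constructor
      · intro h
        exact le_antisymm ((ord_le_iff v ha hb).2 h.ge) ((ord_le_iff v hb ha).2 h.le)
      · intro h
        exact le_antisymm ((ord_le_iff v hb ha).1 h.ge) ((ord_le_iff v ha hb).1 h.le)
    have k2 : v.valuation K b = v.valuation K c ↔ ord v b = ord v c := by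
      constructor
      · intro h
        exact le_antisymm ((ord_le_iff v hb hc).2 h.ge) ((ord_le_iff v hc hb).2 h.le)
      · intro h
        exact le_antisymm ((ord_le_iff v hc hb).1 h.ge) ((ord_le_iff v hb hc).1 h.le)
    rw [k1, k2]
  have g1 : ord v a < ord v b → ord v c = ord v a := by
    intro hlt
    have := (ord_add_eq v (x := a) (y := b) ha (Or.inr hlt)).1
    have e : a + b = -c := by linear_combination h
    rw [e, ord_neg] at this
    exact this
  have g2 : ord v b < ord v a → ord v c = ord v b := by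
    intro hlt
    have := (ord_add_eq v (x := b) (y := a) hb (Or.inr hlt)).1
    have e : b + a = -c := by linear_combination h
    rw [e, ord_neg] at this
    exact this
  have g3 : ord v a = ord v b → ord v a ≤ ord v c := by
    intro heq
    have h1 : 0 ≤ ord v (c / b) := by
      have e : c / b = -(a / b) - 1 := by
        field_simp
        linear_combination h
      rw [e]
      refine sub_nonneg' v ?_ (ord_one v).ge
      rw [ord_neg, ord_div v ha hb, heq, sub_self]
    rw [ord_div v hc hb] at h1
    omega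
  by_cases hr : Rad a b c v
  · rw [if_pos hr]
    rcases lt_trichotomy (ord v a) (ord v b) with hlt | heq | hgt
    · have := g1 hlt
      rw [po_nonpos (n := ord v a - ord v b) (by omega), po_nonpos (n := ord v c - ord v b)
        (by omega), zero_add, zero_add]
      exact po_le _
    · rw [po_nonpos (n := ord v a - ord v b) (by omega), po_nonpos (n := -(ord v a - ord v b))
        (by omega), zero_add, add_zero]
      exact po_le _
    · have := g2 hgt
      rw [po_nonpos (n := ord v c - ord v b) (by omega), po_nonpos (n := -(ord v a - ord v b))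
        (by omega), add_zero, add_zero]
      exact po_le _
  · rw [if_neg hr]
    rw [hR, not_not] at hr
    rw [po_nonpos (n := ord v a - ord v b) (by omega), po_nonpos (n := ord v c - ord v b)
      (by omega), po_nonpos (n := -(ord v a - ord v b)) (by omega)]
    norm_num

/-- one hyperelliptic curve -/
theorem three_of_One {k : Type} [Field k] [NumberField k] {f : k[X]} (hf : Squarefree f)
    (h5 : 5 ≤ f.natDegree) (h : One k f) {ε : ℝ} (hε : 0 < ε) :
    ∃ C : ℝ, 0 ≤ C ∧ ∀ (M : Type) [Field M] [NumberField M], ∀ t : M,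
      (1 - ε) * logHeight₁ t ≤ DD M + sm (w3 t) + Module.finrank ℚ M * C := by
  obtain ⟨F, i1, i2, c, s, hc, hodd, hs5, hyp⟩ := Hyp_of_One hf h5 h
  obtain ⟨F', i1', i2', hW⟩ := W_of_Hyp hc hodd hs5 hyp
  exact L6 (fun ε hε => three_of_W hW hε) hε

end Pool.Agent.H431.UC
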