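import Pool.Agent.H431.UC.Abc

/-!
# The triple `(1 - s, 1 + s, -2)` of a point of the curve `s ^ 2 = 1 - 4 x ^ l`
-/

set_option autoImplicit false

namespace Pool.Agent.H431.UC

open NumberField IsDedekindDomain Height Pool.Agent.Q290.NF Pool.Agent.H431.OC

variable {M : Type} [Field M] [NumberField M]

theorem rad_le_curve {l : ℕ} {x s : M} (hx : x ≠ 0)
    (h : s ^ 2 = 1 - 4 * x ^ l) :
    wt (Rad (1 - s) (1 + s) (-2)) ≤ sm (fun v => po (ord v x)) + sm (fun v => po (-ord v x)) +
      Module.finrank ℚ M * Real.log 2 := by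
  classical
  have hxl : x ^ l ≠ 0 := pow_ne_zero _ hx
  have h2 : (2 : M) ≠ 0 := two_ne_zero
  have h4 : (4 : M) = 2 * 2 := by norm_num
  have h4' : (4 : M) ≠ 0 := by rw [h4]; exact mul_ne_zero h2 h2
  have hfac : (1 - s) * (1 + s) = 4 * x ^ l := by linear_combination -h
  have hne : (1 - s) * (1 + s) ≠ 0 := by rw [hfac]; exact mul_ne_zero h4' hxl
  have ha : (1 - s) ≠ 0 := left_ne_zero_of_mul hne
  have hb : (1 + s) ≠ 0 := right_ne_zero_of_mul hne
  rw [wt_eq]
  have hfin : (Function.support fun v : HeightOneSpectrum (𝓞 M) =>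
      if Rad (1 - s) (1 + s) (-2) v then (1 : ℝ) else 0).Finite := by
    refine ((fin_ord ha).union ((fin_ord hb).union
      (fin_ord (neg_ne_zero.2 h2)))).subset fun v hv => ?_
    rw [Function.mem_support, ne_eq, ite_eq_right_iff, Classical.not_imp] at hv
    by_contra hcon
    rw [Set.mem_union, Set.mem_union, not_or, not_or] at hcon
    obtain ⟨c1, c2, c3⟩ := hcon
    simp only [Set.mem_ofPred_eq, not_not] at c1 c2 c3
    apply hv.1
    rw [(ord_eq_zero_iff v ha).1 c1, (ord_eq_zero_iff v hb).1 c2,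
      (ord_eq_zero_iff v (neg_ne_zero.2 h2)).1 c3]
    exact ⟨rfl, rfl⟩
  have h3 := sm_le_bad (M := M) (N := 2) two_ne_zero (B := 1) (by norm_num)
    (g := fun v => if Rad (1 - s) (1 + s) (-2) v then (1 : ℝ) else 0)
    (h := fun v => po (ord v x) + po (-ord v x)) hfin (supp_add (supp_po x) (supp_po' x))
    (fun v hv => by
      have hv2 : ord v (2 : M) = 0 := by exact_mod_cast hv
      show (if Rad (1 - s) (1 + s) (-2) v then (1 : ℝ) else 0) ≤ po (ord v x) + po (-ord v x)
      by_cases hx0 : ord v x = 0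
      · have hv4 : ord v (4 : M) = 0 := by rw [h4, ord_mul v h2 h2, hv2, add_zero]
        have o1 : ord v (x ^ l) = 0 := by rw [ord_pow, hx0, mul_zero]
        have o2 : ord v (4 * x ^ l) = 0 := by rw [ord_mul v h4' hxl, hv4, o1, add_zero]
        have o3 : 0 ≤ ord v (1 - 4 * x ^ l) := sub_nonneg' v (ord_one v).ge o2.ge
        have o4 : 0 ≤ ord v s := by
          rw [← h, ord_pow] at o3
          push_cast at o3
          omega
        have o5 : 0 ≤ ord v (1 - s) := sub_nonneg' v (ord_one v).ge o4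
        have o6 : 0 ≤ ord v (1 + s) := by
          have e : 1 + s = 1 - (-s) := by ring
          rw [e]
          exact sub_nonneg' v (ord_one v).ge (by rw [ord_neg]; exact o4)
        have o7 : ord v (1 - s) + ord v (1 + s) = 0 := by
          rw [← ord_mul v ha hb, hfac, o2]
        have o8 : ord v (1 - s) = 0 := by omega
        have o9 : ord v (1 + s) = 0 := by omega
        have o10 : ord v (-2 : M) = 0 := by rw [ord_neg, hv2]
        have hn : ¬ Rad (1 - s) (1 + s) (-2) v := by
          unfold Rad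
          rw [not_not, (ord_eq_zero_iff v ha).1 o8, (ord_eq_zero_iff v hb).1 o9,
            (ord_eq_zero_iff v (neg_ne_zero.2 h2)).1 o10]
          exact ⟨rfl, rfl⟩
        rw [if_neg hn]
        exact add_nonneg (po_nonneg _) (po_nonneg _)
      · have h1 : (1 : ℝ) ≤ po (ord v x) + po (-ord v x) := by
          rcases lt_or_gt_of_ne hx0 with h | h
          · rw [po_pos (n := -ord v x) (by omega)]
            linarith [po_nonneg (ord v x)]
          · rw [po_pos h]
            linarith [po_nonneg (-ord v x)]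
        split_ifs <;> linarith)
    (fun v => by
      show (if Rad (1 - s) (1 + s) (-2) v then (1 : ℝ) else 0) ≤ 1
      split_ifs <;> norm_num)
    (fun v => add_nonneg (po_nonneg _) (po_nonneg _))
  rw [sm_add (supp_po x) (supp_po' x)] at h3
  push_cast at h3
  linarith

theorem height_le_curve {l : ℕ} {x s : M} (h : s ^ 2 = 1 - 4 * x ^ l) :
    l * logHeight₁ x ≤ 2 * logHeight₁ s + 3 * (Module.finrank ℚ M * Real.log 2) := by
  have e : x ^ l = (1 - s ^ 2) / 4 := by
    have : (4 : M) ≠ 0 := by norm_num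
    field_simp
    linear_combination h
  have h1 : (l : ℝ) * logHeight₁ x = logHeight₁ (x ^ l) := (logHeight₁_pow x l).symm
  rw [h1, e]
  have h2 := ht_div (1 - s ^ 2) (4 : M)
  have h3 := ht_sub (1 : M) (s ^ 2)
  rw [logHeight₁_one, logHeight₁_pow] at h3
  have h4 : logHeight₁ (4 : M) ≤ 2 * (Module.finrank ℚ M * Real.log 2) := by
    have e4 : (4 : M) = 2 ^ 2 := by norm_num
    rw [e4, logHeight₁_pow]
    have := height_two' M
    push_cast
    linarith
  push_cast at h3
  linarith

theorem height_curve_triple {s : M} (hs : s ≠ 0) (ha : 1 - s ≠ 0) (hb : 1 + s ≠ 0) :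
    logHeight₁ s ≤ logHeight ![1 - s, 1 + s, -2] + 3 * (Module.finrank ℚ M * Real.log 2) := by
  have h2 : (2 : M) ≠ 0 := two_ne_zero
  have hsum : (1 - s) + (1 + s) + -2 = 0 := by ring
  have hbs : (1 + s) - (1 - s) ≠ 0 := by
    have : (1 + s) - (1 - s) = 2 * s := by ring
    rw [this]
    exact mul_ne_zero h2 hs
  obtain ⟨-, -, k2, -, -, -⟩ := triple ha hb (neg_ne_zero.2 h2) hsum hbs
  have es : ((1 + s) - (1 - s)) / ((1 + s) + (1 - s)) = s := by
    have e1 : (1 + s) - (1 - s) = 2 * s := by ring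
    have e2 : (1 + s) + (1 - s) = 2 := by ring
    rw [e1, e2]
    field_simp
  rwa [es, logHeight₁_inv] at k2

end Pool.Agent.H431.UC
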