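import Pool.Agent.H431.OC.Moves

/-!
# Points of all degrees: Orbifold inequalities for the line with three points
-/

set_option autoImplicit false

namespace Pool.Agent.H431.UC

open NumberField IsDedekindDomain Height Pool.Agent.Q290.NF IntermediateField Pool.Agent.H431.OC

section om

end om

section weights

variable {M : Type} [Field M] [NumberField M]

end weights

/-- The orbifold inequality for the line with the indices `a`, `b`, `c` at the points `0`, `1`, `∞`,
for the points of all degrees over the fields that contain `k`. -/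
def W (k : Type) [Field k] [NumberField k] (a b c : ℕ) : Prop :=
  ∀ (ε : ℝ), 0 < ε → ∃ C : ℝ, 0 ≤ C ∧
    ∀ (M : Type) [Field M] [NumberField M] [Algebra k M], ∀ t : M,
      (1 - 1 / (a : ℝ) - 1 / (b : ℝ) - 1 / (c : ℝ) - ε) * logHeight₁ t ≤
        DD M + sm (wgt a b c t) + Module.finrank ℚ M * C

variable {k : Type} [Field k] [NumberField k]

theorem W_triv {M : Type} [Field M] [NumberField M] {a b c : ℕ} (ha : a ≠ 0) (hb : b ≠ 0)
    (hc : c ≠ 0) {κ C : ℝ} (hC : 0 ≤ C) {t : M} (ht : κ * logHeight₁ t ≤ 0) :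
    κ * logHeight₁ t ≤ DD M + sm (wgt a b c t) + Module.finrank ℚ M * C := by
  have h1 := DD_nonneg M
  have h2 := sm_nonneg (wgt_nonneg (M := M) ha hb hc t)
  have h3 : 0 ≤ (Module.finrank ℚ M : ℝ) * C := mul_nonneg (Nat.cast_nonneg _) hC
  linarith

/-- exchange of `0` and `∞` -/
theorem W_inv {a b c : ℕ} (ha : a ≠ 0) (hb : b ≠ 0) (hc : c ≠ 0) (h : W k a b c) : W k c b a := by
  intro ε hε
  obtain ⟨C, hC, H⟩ := h ε hε
  refine ⟨C, hC, fun M _ _ _ t => ?_⟩
  by_cases h0 : t = 0
  · refine W_triv hc hb ha hC ?_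
    rw [h0, logHeight₁_zero, mul_zero]
  by_cases h1 : t = 1
  · refine W_triv hc hb ha hC ?_
    rw [h1, logHeight₁_one, mul_zero]
  have h2 := H M t⁻¹
  rw [logHeight₁_inv] at h2
  have h3 : sm (wgt a b c t⁻¹) ≤ sm (wgt c b a t) := by
    refine sm_mono (supp_wgt _ _ _ _) (supp_wgt _ _ _ _) fun v => ?_
    unfold wgt
    rw [ord_inv, neg_neg]
    have e : t⁻¹ - 1 = -(t - 1) / t := by
      field_simp
      ring
    have h10 : t - 1 ≠ 0 := sub_ne_zero.2 h1
    rw [e, ord_div v (neg_ne_zero.2 h10) h0, ord_neg]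
    have h4 : om b (ord v (t - 1) - ord v t) ≤ om b (ord v (t - 1)) := by
      by_cases h5 : 0 < ord v (t - 1) - ord v t
      · have h6 : ord v t = 0 := by
          by_contra h7
          rcases lt_or_gt_of_ne h7 with h8 | h8
          · have := (ord_sub_eq v (y := 1) h0 (Or.inr (by rw [ord_one]; exact h8))).1
            omega
          · have h9 : ord v (t - 1) = 0 := by
              have := (ord_sub_eq v (x := 1) (y := t) one_ne_zero
                (Or.inr (by rw [ord_one]; exact h8))).1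
              rw [ord_sub_comm, this, ord_one]
            omega
        rw [h6, sub_zero]
      · rw [om_nonpos _ (not_lt.1 h5)]
        exact om_nonneg hb _
    linarith
  refine le_trans (le_of_eq ?_) (h2.trans (by linarith))
  ring

/-- exchange of `0` and `1` -/
theorem W_sub {a b c : ℕ} (hc : c ≠ 0) (h : W k a b c) : W k b a c := by
  intro ε hε
  obtain ⟨C, hC, H⟩ := h ε hε
  obtain ⟨κ, hκ⟩ : ∃ κ : ℝ, κ = 1 - 1 / (a : ℝ) - 1 / (b : ℝ) - 1 / (c : ℝ) - ε := ⟨_, rfl⟩
  have hl : 0 ≤ Real.log 2 := Real.log_nonneg (by norm_num)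
  refine ⟨C + |κ| * Real.log 2, by positivity, fun M _ _ _ t => ?_⟩
  have h2 := H M (1 - t)
  rw [← hκ] at h2
  have h3 : sm (wgt a b c (1 - t)) ≤ sm (wgt b a c t) := by
    refine sm_mono (supp_wgt _ _ _ _) (supp_wgt _ _ _ _) fun v => ?_
    unfold wgt
    have e : 1 - t - 1 = -t := by ring
    rw [e, ord_neg, ord_sub_comm v 1 t]
    have h4 : om c (-ord v (t - 1)) ≤ om c (-ord v t) := by
      by_cases h5 : 0 < -ord v (t - 1)
      · by_cases h0 : t = 0
        · rw [h0, zero_sub, ord_neg, ord_one] at h5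
          exact absurd h5 (by norm_num)
        · have h6 : ord v t < 0 := by
            by_contra h7
            have := sub_nonneg' v (not_lt.1 h7) (y := 1) (by rw [ord_one])
            omega
          have := (ord_sub_eq v (y := 1) h0 (Or.inr (by rw [ord_one]; exact h6))).1
          rw [this]
      · rw [om_nonpos _ (not_lt.1 h5)]
        exact om_nonneg hc _
    linarith
  have e1 : 1 - 1 / (b : ℝ) - 1 / (a : ℝ) - 1 / (c : ℝ) - ε = κ := by
    rw [hκ]
    ring
  rw [e1]
  have hd : (0 : ℝ) ≤ Module.finrank ℚ M := Nat.cast_nonneg _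
  have h5 := ht_sub (1 : M) t
  rw [logHeight₁_one, zero_add] at h5
  have h6 := ht_sub (1 : M) (1 - t)
  rw [logHeight₁_one, zero_add] at h6
  have e2 : (1 : M) - (1 - t) = t := by ring
  rw [e2] at h6
  have h7 : κ * logHeight₁ t ≤ κ * logHeight₁ (1 - t) + |κ| * (Module.finrank ℚ M * Real.log 2) := by
    have h8 : |logHeight₁ t - logHeight₁ (1 - t)| ≤ Module.finrank ℚ M * Real.log 2 := by
      rw [abs_le]
      constructor <;> linarith
    have h9 : κ * (logHeight₁ t - logHeight₁ (1 - t)) ≤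
        |κ| * |logHeight₁ t - logHeight₁ (1 - t)| := by
      rw [← abs_mul]
      exact le_abs_self _
    have h10 := mul_le_mul_of_nonneg_left h8 (abs_nonneg κ)
    linarith
  have h8 : (Module.finrank ℚ M : ℝ) * (C + |κ| * Real.log 2) =
      Module.finrank ℚ M * C + |κ| * (Module.finrank ℚ M * Real.log 2) := by ring
  rw [h8]
  linarith

/-- smaller indices -/
theorem W_drop {a b c d : ℕ} (ha : a ≠ 0) (hd : d ≠ 0) (h : W k (a * d) b c) : W k a b c := by
  intro ε hε
  obtain ⟨C, hC, H⟩ := h ε hε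
  refine ⟨C, hC, fun M _ _ _ t => ?_⟩
  have h2 := H M t
  have h3 : sm (wgt (a * d) b c t) ≤ sm (wgt a b c t) +
      (1 / a - 1 / (a * d)) * logHeight₁ t := by
    have h4 : sm (wgt (a * d) b c t) ≤ sm fun v : HeightOneSpectrum (𝓞 M) => wgt a b c t v +
        (1 / a - 1 / (a * d)) * max 0 (ord v t : ℝ) := by
      refine sm_mono (supp_wgt _ _ _ _) (supp_add (supp_wgt _ _ _ _)
        (supp_smul _ (supp_zeros t))) fun v => ?_
      have := om_drop ha hd (ord v t)
      unfold wgt
      linarith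
    rw [sm_add (supp_wgt _ _ _ _) (supp_smul _ (supp_zeros t)), sm_smul] at h4
    refine h4.trans (add_le_add_right (mul_le_mul_of_nonneg_left (zeros_le t) ?_) _)
    have ha' : (0 : ℝ) < a := by exact_mod_cast Nat.pos_of_ne_zero ha
    have hd' : (1 : ℝ) ≤ d := by exact_mod_cast Nat.one_le_iff_ne_zero.2 hd
    rw [sub_nonneg]
    refine div_le_div_of_nonneg_left zero_le_one ha' ?_
    nlinarith
  push_cast at h2
  have e : (1 - 1 / (a : ℝ) - 1 / (b : ℝ) - 1 / (c : ℝ) - ε) * logHeight₁ t =
      (1 - 1 / ((a : ℝ) * d) - 1 / (b : ℝ) - 1 / (c : ℝ) - ε) * logHeight₁ t -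
      (1 / a - 1 / (a * d)) * logHeight₁ t := by ring
  rw [e]
  linarith

end Pool.Agent.H431.UC
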