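import Pool.Agent.H431.OC.Push
import Pool.Agent.H431.UC.Moves

/-!
# Points of all degrees: The squaring map and the orbifold inequalities
-/

set_option autoImplicit false

namespace Pool.Agent.H431.UC

open NumberField IsDedekindDomain Height Pool.Agent.Q290.NF IntermediateField Pool.Agent.H431.OC

section

variable {M : Type} [Field M] [NumberField M]

end

variable {k : Type} [Field k] [NumberField k]

/-- pulling back by the squaring map -/
theorem W_pull {q r : ℕ} (hq : q ≠ 0) (hr : r ≠ 0) (h : W k 2 q (2 * r)) : W k q q r := by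
  intro ε hε
  obtain ⟨C, hC, H⟩ := h (ε / 2) (by positivity)
  obtain ⟨κ, hκ⟩ : ∃ κ : ℝ, κ = 1 - 1 / (q : ℝ) - 1 / (q : ℝ) - 1 / (r : ℝ) - ε := ⟨_, rfl⟩
  have hl : 0 ≤ Real.log 2 := Real.log_nonneg (by norm_num)
  refine ⟨C + 3 * Real.log 2 + |κ| * (2 * Real.log 2), by positivity, fun M _ _ _ t => ?_⟩
  have hd : (0 : ℝ) ≤ Module.finrank ℚ M := Nat.cast_nonneg _
  have h2 := H M ((2 * t - 1) ^ 2)
  rw [logHeight₁_pow] at h2
  have e1 : (1 - 1 / ((2 : ℕ) : ℝ) - 1 / (q : ℝ) - 1 / ((2 * r : ℕ) : ℝ) - ε / 2) *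
      (((2 : ℕ) : ℝ) * logHeight₁ (2 * t - 1)) = κ * logHeight₁ (2 * t - 1) := by
    rw [hκ]
    have hr' : (r : ℝ) ≠ 0 := by exact_mod_cast hr
    have hq' : (q : ℝ) ≠ 0 := by exact_mod_cast hq
    push_cast
    field_simp
    ring
  rw [e1] at h2
  have h3 : sm (wgt 2 q (2 * r) ((2 * t - 1) ^ 2)) ≤ sm (wgt q q r t) +
      Module.finrank ℚ M * (3 * Real.log (2 : ℕ)) := by
    refine sm_le_bad two_ne_zero (by norm_num) (supp_wgt _ _ _ _) (supp_wgt _ _ _ _)
      (fun v hv => ?_) (fun v => wgt_le _ _ _ _ v) (fun v => wgt_nonneg hq hq hr t v)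
    have hv2 : ord v (2 : M) = 0 := by exact_mod_cast hv
    have hpos := wgt_nonneg hq hq hr t v
    by_cases ht0 : t = 0
    · have e : wgt 2 q (2 * r) ((2 * t - 1) ^ 2) v = 0 := by
        unfold wgt
        have e2 : ((2 * t - 1) ^ 2 : M) = 1 := by rw [ht0]; ring
        rw [e2, sub_self, ord_zero, ord_one, neg_zero, om_nonpos _ le_rfl, om_nonpos _ le_rfl,
          om_nonpos _ le_rfl]
        ring
      rw [e]
      exact hpos
    by_cases ht1 : t = 1
    · have e : wgt 2 q (2 * r) ((2 * t - 1) ^ 2) v = 0 := by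
        unfold wgt
        have e2 : ((2 * t - 1) ^ 2 : M) = 1 := by rw [ht1]; ring
        rw [e2, sub_self, ord_zero, ord_one, neg_zero, om_nonpos _ le_rfl, om_nonpos _ le_rfl,
          om_nonpos _ le_rfl]
        ring
      rw [e]
      exact hpos
    have ht10 : t - 1 ≠ 0 := sub_ne_zero.2 ht1
    unfold wgt
    have e2 : (2 * t - 1) ^ 2 - 1 = 2 ^ 2 * (t * (t - 1)) := by ring
    have o1 : ord v ((2 * t - 1) ^ 2 - 1) = ord v t + ord v (t - 1) := by
      rw [e2, ord_mul v (by norm_num) (mul_ne_zero ht0 ht10), ord_pow, hv2,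
        ord_mul v ht0 ht10]
      ring
    have o2 : ord v ((2 * t - 1) ^ 2) = 2 * ord v (2 * t - 1) := by
      rw [ord_pow]
      norm_num
    rw [o1, o2]
    have p1 : om 2 (2 * ord v (2 * t - 1)) = 0 := om_two_even (even_two_mul _)
    have p2 : om (2 * r) (-(2 * ord v (2 * t - 1))) = om r (-ord v (2 * t - 1)) := by
      rw [← om_double hr]
      congr 1
      ring
    have hneg : ord v t < 0 → ord v (t - 1) = ord v t := fun h5 =>
      (ord_sub_eq v (y := 1) ht0 (Or.inr (by rw [ord_one]; exact h5))).1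
    have hposi : 0 < ord v t → ord v (t - 1) = 0 := fun h5 => by
      have := (ord_sub_eq v (x := 1) (y := t) one_ne_zero (Or.inr (by rw [ord_one]; exact h5))).1
      rw [ord_sub_comm, this, ord_one]
    have p3 : om r (-ord v (2 * t - 1)) ≤ om r (-ord v t) := by
      by_cases h5 : 0 < -ord v (2 * t - 1)
      · have h6 : ord v t < 0 := by
          by_contra h7
          have h8 := sub_nonneg' v (x := 2 * t) (y := 1)
            (mul_nonneg' v hv2.ge (not_lt.1 h7)) (by rw [ord_one])
          omega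
        have h9 : ord v (2 * t) = ord v t := by rw [ord_mul v two_ne_zero ht0, hv2, zero_add]
        have := (ord_sub_eq v (x := 2 * t) (y := 1) (mul_ne_zero two_ne_zero ht0)
          (Or.inr (by rw [ord_one, h9]; exact h6))).1
        rw [this, h9]
      · rw [om_nonpos _ (not_lt.1 h5)]
        exact om_nonneg hr _
    have p4 : om q (ord v t + ord v (t - 1)) ≤ om q (ord v t) + om q (ord v (t - 1)) := by
      have n1 := om_nonneg hq (ord v t)
      have n2 := om_nonneg hq (ord v (t - 1))
      rcases lt_trichotomy (ord v t) 0 with h5 | h5 | h5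
      · have h6 := hneg h5
        rw [om_nonpos q (by omega : ord v t + ord v (t - 1) ≤ 0)]
        linarith
      · rw [h5, zero_add]
        rw [om_nonpos q (le_refl (0 : ℤ)), zero_add]
      · rw [hposi h5, add_zero]
        rw [om_nonpos q (le_refl (0 : ℤ)), add_zero]
    rw [p1, p2]
    linarith
  have h4 : κ * logHeight₁ t ≤ κ * logHeight₁ (2 * t - 1) +
      |κ| * (Module.finrank ℚ M * (2 * Real.log 2)) := by
    refine abs_shift ?_ (ht_two_mul_sub t)
    have h5 := ht_half_add (2 * t - 1)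
    have e3 : (1 + (2 * t - 1)) / 2 = t := by ring
    rwa [e3] at h5
  rw [← hκ]
  push_cast at h3
  have e4 : (Module.finrank ℚ M : ℝ) * (C + 3 * Real.log 2 + |κ| * (2 * Real.log 2)) =
      Module.finrank ℚ M * C + Module.finrank ℚ M * (3 * Real.log 2) +
      |κ| * (Module.finrank ℚ M * (2 * Real.log 2)) := by ring
  rw [e4]
  linarith

/-- pushing forward by the squaring map -/
theorem W_push {q r : ℕ} (hq : q ≠ 0) (hr : r ≠ 0) (h : W k q q r) : W k 2 q (2 * r) := by
  intro ε hε
  obtain ⟨C, hC, H⟩ := h (2 * ε) (by positivity)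
  obtain ⟨κ, hκ⟩ : ∃ κ : ℝ, κ = 1 - 1 / ((2 : ℕ) : ℝ) - 1 / (q : ℝ) -
    1 / ((2 * r : ℕ) : ℝ) - ε := ⟨_, rfl⟩
  have hl : 0 ≤ Real.log 2 := Real.log_nonneg (by norm_num)
  have h2r : 2 * r ≠ 0 := mul_ne_zero two_ne_zero hr
  refine ⟨C + 5 * Real.log 2 + |κ| * (4 * Real.log 2), by positivity, fun M _ _ _ u => ?_⟩
  rw [← hκ]
  have hd : (0 : ℝ) ≤ Module.finrank ℚ M := Nat.cast_nonneg _
  by_cases hu0 : u = 0
  · refine W_triv two_ne_zero hq h2r (by positivity) ?_
    rw [hu0, logHeight₁_zero, mul_zero]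
  by_cases hu1 : u = 1
  · refine W_triv two_ne_zero hq h2r (by positivity) ?_
    rw [hu1, logHeight₁_one, mul_zero]
  by_cases hκ0 : κ ≤ 0
  · exact W_triv two_ne_zero hq h2r (by positivity)
      (mul_nonpos_of_nonpos_of_nonneg hκ0 (ht_nonneg u))
  rw [not_le] at hκ0
  obtain ⟨E, i1, i2, i3, z, hz, hdeg, hadj⟩ := exists_quad M u
  let _ : Algebra k E := ((algebraMap M E).comp (algebraMap k M)).toAlgebra
  obtain ⟨n, hn⟩ : ∃ n : ℝ, n = (Module.finrank M E : ℝ) := ⟨_, rfl⟩
  have hn1 : 1 ≤ n := by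
    rw [hn]
    exact_mod_cast Module.finrank_pos (R := M) (M := E)
  have hdE : (Module.finrank ℚ E : ℝ) = Module.finrank ℚ M * n := by
    rw [hn]
    exact_mod_cast (Module.finrank_mul_finrank ℚ M E).symm
  have h2E : (2 : E) ≠ 0 := two_ne_zero
  obtain ⟨t, ht⟩ : ∃ t : E, t = (1 + z) / 2 := ⟨_, rfl⟩
  have htz : z = 2 * t - 1 := by
    rw [ht]
    ring
  have huE : algebraMap M E u - 1 ≠ 0 := by
    intro h0
    apply hu1
    apply (algebraMap M E).injective
    rw [map_one]
    linear_combination h0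
  have htt : 2 ^ 2 * (t * (t - 1)) = algebraMap M E u - 1 := by
    rw [← hz, htz]
    ring
  have ht0 : t ≠ 0 := by
    rintro rfl
    rw [zero_mul, mul_zero] at htt
    exact huE htt.symm
  have ht1 : t - 1 ≠ 0 := by
    intro h0
    rw [h0, mul_zero, mul_zero] at htt
    exact huE htt.symm
  have h2 := H E t
  have h3 := quad_ineq (k := M) (F := E) z u hu0 hz hadj (B := 3) (by norm_num)
    (wgt q q r t) (wgt 2 q (2 * r) u) (supp_wgt _ _ _ _) (supp_wgt _ _ _ _)
    (fun w => wgt_nonneg hq hq hr t w) (fun w => wgt_le _ _ _ _ w)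
    (fun v => wgt_nonneg two_ne_zero hq h2r u v) (by
      intro v w e he hv2 hvw
      have hg1 := om_nonneg (m := 2) two_ne_zero (ord v u)
      have hg2 := om_nonneg hq (ord v (u - 1))
      have hg3 := om_nonneg h2r (-ord v u)
      have hg0 := wgt_nonneg two_ne_zero hq h2r u v
      have he1 : (1 : ℝ) ≤ e := by exact_mod_cast Nat.one_le_iff_ne_zero.2 he
      have hge : wgt 2 q (2 * r) u v ≤ e * wgt 2 q (2 * r) u v := by nlinarith
      have hw2 : ord w (2 : E) = 0 := by
        have := hvw 2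
        rw [map_ofNat, hv2, mul_zero] at this
        exact this
      have hoz : 2 * ord w z = e * ord v u := by
        rw [← hvw, ← hz, ord_pow]
        norm_num
      have hot : ord w t + ord w (t - 1) = e * ord v (u - 1) := by
        rw [← hvw, map_sub, map_one, ← htt, ord_mul w (by norm_num) (mul_ne_zero ht0 ht1),
          ord_pow, hw2, ord_mul w ht0 ht1]
        ring
      have hez : (0 : ℤ) < e := by exact_mod_cast Nat.pos_of_ne_zero he
      rcases lt_or_ge (ord v u) 0 with hneg | hpos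
      · -- a pole
        have hoz0 : ord w z < 0 := by nlinarith
        have hz0 : z ≠ 0 := by
          rintro rfl
          rw [ord_zero] at hoz0
          exact lt_irrefl _ hoz0
        have o1 : ord w t = ord w z := by
          have h5 := (ord_add_eq w (x := z) (y := 1) hz0 (Or.inr (by rw [ord_one]; exact hoz0)))
          rw [ht, ord_div w (by rw [add_comm]; exact h5.2) h2E, hw2, sub_zero, add_comm, h5.1]
        have o2 : ord w (t - 1) = ord w z := by
          have h5 := (ord_sub_eq w (x := z) (y := 1) hz0 (Or.inr (by rw [ord_one]; exact hoz0)))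
          have e5 : t - 1 = (z - 1) / 2 := by
            rw [ht]
            ring
          rw [e5, ord_div w h5.2 h2E, hw2, sub_zero, h5.1]
        have hf : wgt q q r t w = om r (-ord w z) := by
          unfold wgt
          rw [o1, o2, om_nonpos q hoz0.le]
          ring
        have hgl : om (2 * r) (-ord v u) ≤ wgt 2 q (2 * r) u v := by
          unfold wgt
          linarith
        refine ⟨fun hev => ?_, fun hodd he2 => ?_⟩
        · obtain ⟨m, hm⟩ := hev
          have o3 : -ord w z = e * (-m) := by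
            rw [hm] at hoz
            linarith
          rw [hf, o3]
          have h6 := om_mul_le hr he (-m)
          have h7 : om (2 * r) (-ord v u) = om r (-m) := by
            rw [← om_double hr, hm]
            congr 1
            ring
          linarith
        · have o3 : ord w z = ord v u := by
            rw [he2] at hoz
            push_cast at hoz
            linarith
          rw [hf, o3]
          have h6 := om_odd hr (n := -ord v u) (by linarith) hodd.neg
          linarith
      · have hoz0 : 0 ≤ ord w z := by nlinarith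
        have o1 : 0 ≤ ord w t := by
          rw [ht]
          have h5 := add_nonneg' w (x := 1) (y := z) (by rw [ord_one]) hoz0
          have h6 : 0 ≤ ord w (2⁻¹ : E) := by rw [ord_inv, hw2, neg_zero]
          have := mul_nonneg' w h5 h6
          rwa [← div_eq_mul_inv] at this
        have o2 : 0 ≤ ord w (t - 1) := sub_nonneg' w o1 (by rw [ord_one])
        have hf : wgt q q r t w ≤ om q (ord v (u - 1)) := by
          unfold wgt
          rw [om_nonpos r (by linarith)]
          have h6 := om_mul_le hq he (ord v (u - 1))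
          rw [← hot] at h6
          rcases eq_or_lt_of_le o1 with h7 | h7
          · rw [← h7, zero_add] at h6
            rw [← h7, om_nonpos q le_rfl]
            linarith
          · have h8 : ord w (t - 1) = 0 := by
              have := (ord_sub_eq w (x := 1) (y := t) one_ne_zero
                (Or.inr (by rw [ord_one]; exact h7))).1
              rw [ord_sub_comm, this, ord_one]
            rw [h8, add_zero] at h6
            rw [h8, om_nonpos q (le_refl (0 : ℤ))]
            linarith
        refine ⟨fun hev => ?_, fun hodd he2 => ?_⟩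
        · have : om q (ord v (u - 1)) ≤ wgt 2 q (2 * r) u v := by
            unfold wgt
            linarith
          linarith
        · have hpos' : 0 < ord v u := by
            rcases eq_or_lt_of_le hpos with h7 | h7
            · rw [← h7] at hodd
              exact absurd hodd (by decide)
            · exact h7
          have h8 : ord v (u - 1) = 0 := by
            have := (ord_sub_eq v (x := 1) (y := u) one_ne_zero
              (Or.inr (by rw [ord_one]; exact hpos'))).1
            rw [ord_sub_comm, this, ord_one]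
          rw [h8, om_nonpos q (le_refl (0 : ℤ))] at hf
          have h9 := om_two_odd hpos' hodd
          have : om 2 (ord v u) ≤ wgt 2 q (2 * r) u v := by
            unfold wgt
            linarith
          linarith)
  rw [← hn] at h3
  -- heights
  have h4 : 2 * logHeight₁ z = n * logHeight₁ u := by
    rw [hn, ← ht_ext, ← hz, logHeight₁_pow]
    norm_num
  have h5 := ht_two_mul_sub t
  rw [← htz, hdE] at h5
  rw [hdE] at h2
  have hκ2 : 1 - 1 / (q : ℝ) - 1 / (q : ℝ) - 1 / (r : ℝ) - 2 * ε = 2 * κ := by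
    rw [hκ]
    have hr' : (r : ℝ) ≠ 0 := by exact_mod_cast hr
    have hq' : (q : ℝ) ≠ 0 := by exact_mod_cast hq
    push_cast
    field_simp
    ring
  rw [hκ2] at h2
  have h6 : 2 * κ * logHeight₁ z ≤ 2 * κ * logHeight₁ t +
      2 * κ * (Module.finrank ℚ M * n * (2 * Real.log 2)) := by
    rw [← mul_add]
    exact mul_le_mul_of_nonneg_left h5 (by linarith)
  have h7 : n * (κ * logHeight₁ u) ≤ n * (DD M + sm (wgt 2 q (2 * r) u) +
      Module.finrank ℚ M * (C + 5 * Real.log 2 + |κ| * (4 * Real.log 2))) := by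
    have e7 : n * (κ * logHeight₁ u) = 2 * κ * logHeight₁ z := by
      linear_combination (-κ) * h4
    have e8 : |κ| = κ := abs_of_pos hκ0
    rw [e7, e8]
    unfold DD at h2 ⊢
    have e9 : n * (Real.log |(discr M : ℝ)| + sm (wgt 2 q (2 * r) u) +
      Module.finrank ℚ M * (C + 5 * Real.log 2 + κ * (4 * Real.log 2))) =
      n * (Real.log |(discr M : ℝ)| + sm (wgt 2 q (2 * r) u) + Module.finrank ℚ M *
        ((3 + 2) * Real.log 2)) + Module.finrank ℚ M * n * C +
        2 * κ * (Module.finrank ℚ M * n * (2 * Real.log 2)) := by ring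
    rw [e9]
    linarith
  exact le_of_mul_le_mul_left h7 (by linarith)

/-- one step -/
theorem W_step {m : ℕ} (hm : m ≠ 0) (h : W k (2 * (4 * m)) (2 * (4 * m)) (4 * m)) :
    W k (2 * (8 * m)) (2 * (8 * m)) (8 * m) := by
  have a1 : 4 * m ≠ 0 := by omega
  have a2 : 2 * (4 * m) ≠ 0 := by omega
  have a3 : 8 * m ≠ 0 := by omega
  have a4 : 2 * (8 * m) ≠ 0 := by omega
  have a5 : 2 * m ≠ 0 := by omega
  -- (8m, 8m, 4m) → (4m, 4m, 8m)
  have h1 : W k (4 * m) (2 * (4 * m)) (4 * m) :=
    W_drop (d := 2) a1 two_ne_zero (by rwa [mul_comm (4 * m) 2])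
  have h2 : W k (2 * (4 * m)) (4 * m) (4 * m) := W_sub a1 h1
  have h3 : W k (4 * m) (4 * m) (2 * (4 * m)) := W_inv a2 a1 a1 h2
  -- push: (2, 4m, 16m)
  have h4 : W k 2 (4 * m) (2 * (2 * (4 * m))) := W_push a1 a2 h3
  -- (2, 16m, 4m)
  have e1 : 2 * (2 * (4 * m)) = 2 * (8 * m) := by ring
  rw [e1] at h4
  have h5 : W k (4 * m) 2 (2 * (8 * m)) := W_sub a4 h4
  have h6 : W k (2 * (8 * m)) 2 (4 * m) := W_inv a1 two_ne_zero a4 h5
  have h7 : W k 2 (2 * (8 * m)) (4 * m) := W_sub a1 h6
  -- pull: (16m, 16m, 2m)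
  have h8 : W k (2 * (8 * m)) (2 * (8 * m)) (2 * m) := by
    have e2 : 4 * m = 2 * (2 * m) := by ring
    rw [e2] at h7
    exact W_pull a4 a5 h7
  -- (16m, 16m, 2)
  have h9 : W k (2 * m) (2 * (8 * m)) (2 * (8 * m)) := W_inv a4 a4 a5 h8
  have h10 : W k 2 (2 * (8 * m)) (2 * (8 * m)) := W_drop (d := m) two_ne_zero hm h9
  exact W_pull a4 a3 h10

theorem W_all (h : W k 4 4 4) : ∀ j : ℕ, W k (2 * (4 * 2 ^ j)) (2 * (4 * 2 ^ j)) (4 * 2 ^ j) := by
  intro j
  induction j with
  | zero =>
    -- (4, 4, 4) → (2, 4, 8) → (2, 8, 4) → (8, 8, 2) → (2, 8, 8) → (8, 8, 4)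
    have h4 : (4 : ℕ) ≠ 0 := by norm_num
    have h8 : (8 : ℕ) ≠ 0 := by norm_num
    have h1 : W k 2 4 (2 * 4) := W_push h4 h4 h
    have h2 : W k 4 2 (2 * 4) := W_sub (by norm_num) h1
    have h3 : W k (2 * 4) 2 4 := W_inv h4 two_ne_zero (by norm_num) h2
    have h5 : W k 2 8 (2 * 2) := W_sub (by norm_num) h3
    have h6 : W k 8 8 2 := W_pull h8 two_ne_zero h5
    have h7 : W k 2 8 (2 * 4) := W_inv h8 h8 two_ne_zero h6
    have h9 := W_pull h8 h4 h7
    simpa using h9
  | succ j ih =>
    have h1 := W_step (m := 2 ^ j) (pow_ne_zero _ two_ne_zero) ih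
    have e : 8 * 2 ^ j = 4 * 2 ^ (j + 1) := by ring
    rwa [e] at h1

/-- all indices `2 ^ j` -/
theorem W_diag (h : W k 4 4 4) (j : ℕ) : W k (4 * 2 ^ j) (4 * 2 ^ j) (4 * 2 ^ j) := by
  have a1 : 4 * 2 ^ j ≠ 0 := mul_ne_zero (by norm_num) (pow_ne_zero _ two_ne_zero)
  have h1 := W_all h j
  have h2 : W k (4 * 2 ^ j) (2 * (4 * 2 ^ j)) (4 * 2 ^ j) :=
    W_drop (d := 2) a1 two_ne_zero (by rwa [mul_comm (4 * 2 ^ j) 2])
  have h3 := W_sub a1 h2
  exact W_drop (d := 2) a1 two_ne_zero (by rwa [mul_comm (4 * 2 ^ j) 2])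

end Pool.Agent.H431.UC
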